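import Pool.Agent.Q193.LT.Key

/-!
# Smooth projective compactifications and devissage by the dimension
-/

set_option autoImplicit false

open CategoryTheory AlgebraicGeometry Pool.Agent.Y116.UV Pool.Agent.Z125.UN Pool.Agent.Q193.LT
open TopologicalSpace Order

namespace Pool.Agent.V5helper77.GW

/-- The homogeneous polynomials of degree `d` in `x_0, …, x_N`. -/
noncomputable def homog (k : Type) [Field k] (N d : ℕ) : Submodule k (MvPolynomial (Fin (N + 1)) k) :=
  MvPolynomial.homogeneousSubmodule (Fin (N + 1)) k d

/-- The grading of the polynomial ring. -/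
noncomputable instance homogGrading (k : Type) [Field k] (N : ℕ) : GradedAlgebra (homog k N) :=
  MvPolynomial.gradedAlgebra

/-- The projective space `ℙ^N` over `k`: the `Proj` of the graded ring `k[x_0, …, x_N]`. -/
noncomputable def PP (k : Type) [Field k] (N : ℕ) : Sch k :=
  Over.mk (Proj.toSpecZero (homog k N) ≫ Spec.map (CommRingCat.ofHom (algebraMap k (homog k N 0))))

/-- `X` is a smooth projective variety over `k`: it is smooth and proper over `k` and integral, and it
has a closed immersion over `k` into a projective space. -/
structure IsSmProj {k : Type} [Field k] (X : Sch k) : Prop where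
  smooth : Smooth X.hom
  proper : IsProper X.hom
  integral : IsIntegral X.left
  projective : ∃ (N : ℕ) (i : X ⟶ PP k N), IsClosedImmersion i.left

/-- **Hironaka's theorem** on smooth compactifications: a smooth affine variety over `k` is an open
subscheme of a smooth projective variety of the same dimension. -/
def Hironaka (k : Type) [Field k] : Prop :=
  ∀ (A : Type) [CommRing A] [IsDomain A] [Algebra k A] [Algebra.Smooth k A],
    ∃ (X : Sch k) (j : aff k A ⟶ X), IsSmProj X ∧ IsOpenImmersion j.left ∧
      topologicalKrullDim X.left = ringKrullDim A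

/-- A proper closed subset of an irreducible space has smaller dimension. -/
lemma dim_lt {Y Z : Type*} [TopologicalSpace Y] [TopologicalSpace Z]
    (hY : IsIrreducible (Set.univ : Set Y)) (f : Z → Y) (hf : Topology.IsClosedEmbedding f)
    (hne : Set.range f ≠ Set.univ) {n : ℕ} (hn : topologicalKrullDim Y ≤ n) :
    topologicalKrullDim Z < n := by
  classical
  unfold topologicalKrullDim at hn ⊢
  by_contra hcon
  rw [not_lt] at hcon
  obtain ⟨p, hp⟩ := le_krullDim_iff.mp hcon
  let m := IrreducibleCloseds.map f hf.continuous
  have hm : StrictMono m := IrreducibleCloseds.map_strictMono_of_isInducing hf.isInducing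
  let q := p.map m hm
  let t : IrreducibleCloseds Y := ⟨Set.univ, hY, isClosed_univ⟩
  have hlt : q.last < t := by
    have h1 : q.last = m p.last := rfl
    rw [h1]
    refine lt_of_le_of_ne (fun x _ => Set.mem_univ x) ?_
    intro h
    apply hne
    have h2 : ((m p.last : IrreducibleCloseds Y) : Set Y) = Set.univ := by rw [h]; rfl
    have h3 : ((m p.last : IrreducibleCloseds Y) : Set Y) ⊆ Set.range f := by
      have h4 : ((m p.last : IrreducibleCloseds Y) : Set Y) = closure (f '' (p.last : Set Z)) := rfl
      rw [h4]
      exact closure_minimal (Set.image_subset_range _ _) hf.isClosed_range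
    exact Set.univ_subset_iff.mp (h2 ▸ h3)
  have h5 := LTSeries.length_le_krullDim (q.snoc t hlt)
  have h6 : (q.snoc t hlt).length = n + 1 := by rw [← hp]; rfl
  rw [h6] at h5
  have h7 := h5.trans hn
  have h8 : n + 1 ≤ n := by exact_mod_cast h7
  omega

/-- An empty scheme. -/
lemma p_isEmpty {k : Type} [Field k] {sep : Prop} {P : Sch k → Prop} (hP : Bnd sep P) (Z : Sch k)
    [IsEmpty Z.left] : P Z := by
  have hft : Algebra.FiniteType k PUnit.{1} := ⟨⟨∅, by
    rw [eq_top_iff]
    intro x _
    have hx : x = 0 := Subsingleton.elim _ _
    rw [hx]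
    exact zero_mem _⟩⟩
  have h1 : P (aff k PUnit.{1}) := p_empty hP _ inferInstance
  refine hP.iso (ft_aff (sep := sep) (A := PUnit.{1})) ?_ h1
  have h2 : IsEmpty (aff k PUnit.{1}).left := by
    change IsEmpty (PrimeSpectrum PUnit.{1})
    infer_instance
  let i1 : Limits.IsInitial (aff k PUnit.{1}).left := isInitialOfIsEmpty
  let i2 : Limits.IsInitial Z.left := isInitialOfIsEmpty
  exact ⟨Over.isoMk (i1.uniqueUpToIso i2) (i1.hom_ext _ _)⟩

lemma lt_succ_iff' {x : WithBot ℕ∞} (m : ℕ) : x < ((m + 1 : ℕ) : WithBot ℕ∞) ↔ x ≤ m := by
  rw [Nat.cast_add, Nat.cast_one]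
  exact ENat.WithBot.lt_add_one_iff

/-- Devissage by the dimension: from the smooth projective varieties of dimension at most `n` to all
separated schemes of finite type of dimension at most `n`. -/
theorem of_proj {k : Type} [Field k] [PerfectField k] {P : Sch k → Prop} (hP : Bnd True P)
    (hH : Hironaka k) (n : ℕ)
    (h : ∀ X : Sch k, IsSmProj X → topologicalKrullDim X.left ≤ n → P X)
    (X : Sch k) (hX : FT True X) (hn : topologicalKrullDim X.left ≤ n) : P X := by
  have key : ∀ m : ℕ, m ≤ n + 1 → ∀ Y : Sch k, FT True Y → topologicalKrullDim Y.left < m → P Y := by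
    intro m
    induction m with
    | zero =>
      intro _ Y _ hd
      have : IsEmpty Y.left := by
        by_contra hne
        rw [not_isEmpty_iff] at hne
        have h1 : 0 ≤ topologicalKrullDim Y.left := by
          obtain ⟨x⟩ := hne
          have h2 : Nonempty (IrreducibleCloseds Y.left) :=
            ⟨⟨closure {x}, isIrreducible_singleton.closure, isClosed_closure⟩⟩
          unfold topologicalKrullDim
          exact krullDim_nonneg
        exact absurd h1 (not_le.mpr hd)
      exact p_isEmpty hP Y
    | succ m ih =>
      intro hm Y hY hd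
      rw [lt_succ_iff'] at hd
      refine of_affine_dim hP (n := m) (fun A _ _ _ hA => ?_) Y hY hd
      refine noeth hP (fun B _ _ hB => p_empty hP B hB) fun p hp => ?_
      obtain ⟨w, hw, hs⟩ := exists_smooth (k := k) (A ⧸ p)
      refine ⟨w, hw, ?_⟩
      have hD : IsDomain (Localization.Away w) :=
        IsLocalization.isDomain_localization (powers_le_nonZeroDivisors_of_noZeroDivisors hw)
      obtain ⟨X, j, hX, hj, hdim⟩ := hH (Localization.Away w)
      have hdX : topologicalKrullDim X.left ≤ m := by
        rw [hdim]
        exact (dim_away w).trans ((ringKrullDim_quotient_le p).trans hA)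
      have hPX : P X := h X hX (hdX.trans (by exact_mod_cast (by omega : m ≤ n)))
      have hftX : FT True X := by
        have h1 := hX.proper
        exact ⟨inferInstance, inferInstance, fun _ => inferInstance⟩
      let V : X.left.Opens := j.left.opensRange
      have ht : IsTriple (cloMap X V) j := ⟨inferInstance, hj, range_cloMap X V⟩
      refine hP.opened (cloMap X V) j hftX ht (ih (by omega) _ (ft_clo hftX) ?_) hPX
      have hint := hX.integral
      have hirr : IsIrreducible (Set.univ : Set X.left) := IrreducibleSpace.isIrreducible_univ _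
      refine dim_lt hirr (cloMap X V).left ?_ ?_ hdX
      · exact (cloMap X V).left.isClosedEmbedding
      · rw [range_cloMap]
        intro h1
        have h2 : (V : Set X.left) = ∅ := Set.compl_univ_iff.mp h1
        have h3 : Nonempty (aff k (Localization.Away w)).left := by
          change Nonempty (PrimeSpectrum (Localization.Away w))
          infer_instance
        obtain ⟨x⟩ := h3
        have h4 : j.left x ∈ (V : Set X.left) := ⟨x, rfl⟩
        rw [h2] at h4
        exact h4
  refine key (n + 1) le_rfl X hX ?_
  rw [lt_succ_iff']
  exact hn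

end Pool.Agent.V5helper77.GW
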