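import Pool.Agent.V5helper77.GW.Geo
import Pool.Agent.Q193.LT.Mod

/-!
# Weight-graded pieces of the cohomology with compact support
-/

set_option autoImplicit false

open CategoryTheory CategoryTheory.Limits AlgebraicGeometry Pool.Agent.Y116.UV Pool.Agent.Z125.UN
  Pool.Agent.Q193.LT

universe v u

namespace Pool.Agent.V5helper77.GW

section exact

variable {C : Type u} [Category.{v} C] [Abelian C]

/-- `X → Y → Z` is exact at `Y`. -/
def IsEx {X Y Z : C} (f : X ⟶ Y) (g : Y ⟶ Z) : Prop :=
  ∃ w : f ≫ g = 0, (ShortComplex.mk f g w).Exact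

/-- There is a long exact sequence `⋯ → A n → B n → D n → A (n + 1) → ⋯`. -/
def LongExact (A B D : ℤ → C) : Prop :=
  ∃ (a : ∀ n, A n ⟶ B n) (b : ∀ n, B n ⟶ D n) (d : ∀ n, D n ⟶ A (n + 1)),
    ∀ n, IsEx (a n) (b n) ∧ IsEx (b n) (d n) ∧ IsEx (d n) (a (n + 1))

lemma LongExact.mid {A B D : ℤ → C} (h : LongExact A B D) {S : C → Prop} (hS : IsSerre S)
    (hA : ∀ n, S (A n)) (hD : ∀ n, S (D n)) (n : ℤ) : S (B n) := by
  obtain ⟨a, b, d, h⟩ := h
  obtain ⟨w, hw⟩ := (h n).1
  exact hS.mid _ _ w hw (hA n) (hD n)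

lemma LongExact.right {A B D : ℤ → C} (h : LongExact A B D) {S : C → Prop} (hS : IsSerre S)
    (hA : ∀ n, S (A n)) (hB : ∀ n, S (B n)) (n : ℤ) : S (D n) := by
  obtain ⟨a, b, d, h⟩ := h
  obtain ⟨w, hw⟩ := (h n).2.1
  exact hS.mid _ _ w hw (hB n) (hA (n + 1))

lemma LongExact.left {A B D : ℤ → C} (h : LongExact A B D) {S : C → Prop} (hS : IsSerre S)
    (hB : ∀ n, S (B n)) (hD : ∀ n, S (D n)) (n : ℤ) : S (A n) := by
  obtain ⟨a, b, d, h⟩ := h
  obtain ⟨n, rfl⟩ : ∃ m, n = m + 1 := ⟨n - 1, by ring⟩
  obtain ⟨w, hw⟩ := (h n).2.2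
  exact hS.mid _ _ w hw (hD n) (hB (n + 1))

end exact

variable {k : Type} [Field k] {C : Type u} [Category.{v} C] [Abelian C]

/-- `V w n X` is the graded piece `Gr^W_w H^n_c(X)` of the cohomology with compact support of the
scheme `X` over the field `k` of characteristic zero, an object of the category `C` of motives (André's
motives, defined with motivated cycles), and `tw r M` is the Tate twist `M(-r)`. The properties:

* `semisimple`: the abelian category `C` is semisimple (André);
* `iso`: isomorphic schemes have isomorphic motives;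
* `localization`: the long exact sequence of a closed subscheme `Z` and its complement `U`;
* `bundle`: `H^{n+2r}_c(E) = H^n_c(U)(-r)`, `r = m - 1`, for the affine bundle
  `E = Spec B[w_1, …, w_m] / (∑ f_l w_l - 1) → U` with fibre `𝔸^(m-1)`, where `U` is the complement of
  `f = 0` in `Spec B`;
* `torus`: `H^n_c(X)` is a direct summand of `H^{n+1}_c(X × 𝔾_m)`;
* `pure`: the cohomology `H^n` of smooth projective varieties is pure of weight `n` (Deligne). -/
structure IsWeightTheory (V : ℤ → ℤ → Sch k → C) (tw : ℤ → C → C) : Prop where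
  semisimple : ∀ {M N : C} (f : M ⟶ N), Mono f → ∃ r : N ⟶ M, f ≫ r = 𝟙 M
  iso : ∀ {X Y : Sch k}, FT True X → Nonempty (X ≅ Y) → ∀ w n, Nonempty (V w n X ≅ V w n Y)
  localization : ∀ {Z X U : Sch k} (i : Z ⟶ X) (j : U ⟶ X), FT True X → IsTriple i j →
    ∀ w, LongExact (fun n => V w n U) (fun n => V w n X) (fun n => V w n Z)
  bundle : ∀ (B : Type) [CommRing B] [Algebra k B] [Algebra.FiniteType k B] (m : ℕ)
    (f : Fin m → B) (U : Sch k) (j : U ⟶ aff k B), IsOpenImmersion j.left →
    Set.range j.left = {x : PrimeSpectrum B | ∃ l, f l ∉ x.asIdeal} →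
    ∀ w n : ℤ, Nonempty (V (w + 2 * (m - 1)) (n + 2 * (m - 1)) (aff k (Jou f)) ≅
      tw (m - 1) (V w n U))
  torus : ∀ (B : Type) [CommRing B] [Algebra k B] [Algebra.FiniteType k B] (w n : ℤ),
    ∃ (s : V w n (aff k B) ⟶ V w (n + 1) (aff k (LaurentPolynomial B)))
      (r : V w (n + 1) (aff k (LaurentPolynomial B)) ⟶ V w n (aff k B)), s ≫ r = 𝟙 _
  pure : ∀ X : Sch k, IsSmProj X → ∀ w n : ℤ, w ≠ n → IsZero (V w n X)

/-- A property `S w M` of the objects `M` of weight `w` which passes to direct summands and direct sums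
and is invariant under Tate twists. -/
structure IsTwistClass (S : ℤ → C → Prop) (tw : ℤ → C → C) : Prop where
  zero : ∀ w M, IsZero M → S w M
  retract : ∀ w {M N : C} (i : M ⟶ N) (r : N ⟶ M), i ≫ r = 𝟙 M → S w N → S w M
  sum : ∀ w {M N : C}, S w M → S w N → S w (M ⊞ N)
  twist : ∀ (w r : ℤ) (M : C), S (w + 2 * r) (tw r M) ↔ S w M

variable {V : ℤ → ℤ → Sch k → C} {tw : ℤ → C → C} {S : ℤ → C → Prop}

/-- All graded pieces of the cohomology with compact support of `X` have the property. -/
def AllPieces (V : ℤ → ℤ → Sch k → C) (S : ℤ → C → Prop) (X : Sch k) : Prop :=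
  ∀ w n : ℤ, S w (V w n X)

theorem bnd_pieces (hV : IsWeightTheory V tw) (hS : IsTwistClass S tw)
    (h1 : AllPieces V S (aff k k)) : Bnd True (AllPieces V S) := by
  have hs : ∀ w, IsSerre (S w) := fun w =>
    serre_of_semisimple hV.semisimple (hS.zero w) (hS.retract w) (hS.sum w)
  have hbun : ∀ (B : Type) [CommRing B] [Algebra k B] [Algebra.FiniteType k B] (m : ℕ)
      (f : Fin m → B) (U : Sch k) (j : U ⟶ aff k B), IsOpenImmersion j.left →
      Set.range j.left = {x : PrimeSpectrum B | ∃ l, f l ∉ x.asIdeal} →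
      (AllPieces V S U ↔ AllPieces V S (aff k (Jou f))) := by
    intro B _ _ _ m f U j hj hr
    constructor
    · intro h w n
      obtain ⟨e⟩ := hV.bundle B m f U j hj hr (w - 2 * (m - 1)) (n - 2 * (m - 1))
      rw [sub_add_cancel, sub_add_cancel] at e
      refine (hs w).iso e.symm ?_
      have h2 := (hS.twist (w - 2 * (m - 1)) (m - 1) (V (w - 2 * (m - 1)) (n - 2 * (m - 1)) U)).mpr
        (h _ _)
      rwa [sub_add_cancel] at h2
    · intro h w n
      obtain ⟨e⟩ := hV.bundle B m f U j hj hr w n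
      exact (hS.twist w (m - 1) _).mp ((hs _).iso e (h _ _))
  exact
  { iso := fun hX e h w n => by
      obtain ⟨e'⟩ := hV.iso hX e w n
      exact (hs w).iso e' (h w n)
    total := fun i j hX ht hZ hU w n =>
      (hV.localization i j hX ht w).mid (hs w) (fun n => hU w n) (fun n => hZ w n) n
    opened := fun i j hX ht hZ hX' w n =>
      (hV.localization i j hX ht w).left (hs w) (fun n => hX' w n) (fun n => hZ w n) n
    closed := fun i j hX ht hX' hU w n =>
      (hV.localization i j hX ht w).right (hs w) (fun n => hU w n) (fun n => hX' w n) n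
    space := fun m => by
      have h2 := (hbun k (m + 1) (f1 k m) (aff k k) (𝟙 _) inferInstance (range_id m)).mp h1
      intro w n
      obtain ⟨e⟩ := hV.iso (ft_aff True) ⟨(affIso (jouOne k m)).symm⟩ w n
      exact (hs w).iso e (h2 w n)
    jouanolou := fun B _ _ _ m f U j hj hr h => (hbun B m f U j hj hr).mpr h
    torus := fun B _ _ _ h w n => by
      obtain ⟨s, r, hsr⟩ := hV.torus B w n
      exact hS.retract w s r hsr (h w (n + 1))
    bundle := fun B _ _ _ m f U j hj hr h => (hbun B m f U j hj hr).mp h }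

/-- Smooth projective varieties of dimension at most `n`, all schemes of dimension at most `n`, and
the trilinear forms with a block of at most `n + 2` variables. -/
theorem graded_iff [PerfectField k] (hV : IsWeightTheory V tw) (hS : IsTwistClass S tw)
    (h1 : AllPieces V S (aff k k)) (hH : Hironaka k) (n : ℕ) :
    ((∀ X : Sch k, IsSmProj X → topologicalKrullDim X.left ≤ n → ∀ i : ℤ, S i (V i i X)) ↔
      ∀ X : Sch k, FT True X → topologicalKrullDim X.left ≤ n → AllPieces V S X) ∧
    ((∀ X : Sch k, IsSmProj X → topologicalKrullDim X.left ≤ n → ∀ i : ℤ, S i (V i i X)) ↔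
      ∀ (a b c : ℕ) (T : Fin a → Fin b → Fin c → k), (a ≤ n + 2 ∨ b ≤ n + 2 ∨ c ≤ n + 2) →
        AllPieces V S (hypS T)) := by
  have hB := bnd_pieces hV hS h1
  have key : (∀ X : Sch k, IsSmProj X → topologicalKrullDim X.left ≤ n → ∀ i : ℤ, S i (V i i X)) ↔
      ∀ X : Sch k, FT True X → topologicalKrullDim X.left ≤ n → AllPieces V S X := by
    constructor
    · intro h X hX hn
      refine of_proj hB hH n (fun Y hY hd w i => ?_) X hX hn
      by_cases hwi : w = i
      · subst hwi
        exact h Y hY hd w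
      · exact hS.zero w _ (hV.pure Y hY w i hwi)
    · intro h X hX hd i
      have hp := hX.proper
      exact h X ⟨inferInstance, inferInstance, fun _ => inferInstance⟩ hd i i
  exact ⟨key, key.trans (dim_iff hB n)⟩

/-- All smooth projective varieties and all schemes. -/
theorem all_smProj_iff [PerfectField k] (hV : IsWeightTheory V tw) (hS : IsTwistClass S tw)
    (h1 : AllPieces V S (aff k k)) (hH : Hironaka k) :
    (∀ X : Sch k, IsSmProj X → ∀ i : ℤ, S i (V i i X)) ↔
      ∀ X : Sch k, FT True X → AllPieces V S X := by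
  have hB := bnd_pieces hV hS h1
  constructor
  · intro h
    have h2 : ∀ (a b c : ℕ) (T : Fin a → Fin b → Fin c → k), AllPieces V S (hypS T) := by
      intro a b c T
      exact ((graded_iff hV hS h1 hH a).2.mp fun X hX _ i => h X hX i) a b c T
        (Or.inl (by omega))
    exact (all_iff hB).mpr h2
  · intro h X hX i
    have hp := hX.proper
    exact h X ⟨inferInstance, inferInstance, fun _ => inferInstance⟩ i i

/-- Fields all of whose elements are quotients of integers: tripartite hypergraphs. -/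
theorem trip_iff [PerfectField k] (hk : Frac k) (hV : IsWeightTheory V tw)
    (hS : IsTwistClass S tw) (h1 : AllPieces V S (aff k k)) (hH : Hironaka k) :
    (∀ X : Sch k, IsSmProj X → ∀ i : ℤ, S i (V i i X)) ↔
      ∀ (a b c : ℕ) (H : Finset (Fin a × Fin b × Fin c)), AllPieces V S (tripS k H) := by
  rw [all_smProj_iff hV hS h1 hH]
  constructor
  · intro h a b c H
    exact h _ (ft_aff True)
  · intro h X hX
    exact universal_frac hk (bnd_pieces hV hS h1).toUni h X hX

end Pool.Agent.V5helper77.GW
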